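import Pool.Agent.Helper74.CW.BIG

/-!
# Module QUAD: planes with a quadratic relation
-/

namespace Pool.Agent.Helper74.CW

open Module Polynomial

variable {F K : Type*} [Field F] [Field K] [Algebra F K]

/-- a quadratic form in three variables over a finite field has a nontrivial zero -/
lemma qd_zero [Finite F] (X : Matrix (Fin 3) (Fin 3) F) :
    ∃ p : Fin 3 → F, p ≠ 0 ∧ ∑ i, ∑ j, X i j * (p i * p j) = 0 := by
  classical
  have := Fintype.ofFinite F
  obtain ⟨c, hc⟩ := CharP.exists F
  set f : MvPolynomial (Fin 3) F := ∑ i, ∑ j, MvPolynomial.C (X i j) *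
    (MvPolynomial.X i * MvPolynomial.X j) with hf
  have hdeg : f.totalDegree < Fintype.card (Fin 3) := by
    have h1 : f.totalDegree ≤ 2 := by
      rw [hf]
      apply MvPolynomial.totalDegree_finsetSum_le
      intro i _
      apply MvPolynomial.totalDegree_finsetSum_le
      intro j _
      refine (MvPolynomial.totalDegree_mul _ _).trans ?_
      rw [MvPolynomial.totalDegree_C, zero_add]
      refine (MvPolynomial.totalDegree_mul _ _).trans ?_
      rw [MvPolynomial.totalDegree_X, MvPolynomial.totalDegree_X]
    rw [Fintype.card_fin]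
    omega
  have hdvd := char_dvd_card_solutions c hdeg
  have hc2 : 2 ≤ c := by
    have := CharP.char_is_prime F c
    exact this.two_le
  have h0 : MvPolynomial.eval (0 : Fin 3 → F) f = 0 := by
    rw [hf]
    simp
  have hcard : 1 < Fintype.card {x : Fin 3 → F // MvPolynomial.eval x f = 0} := by
    have h1 : 0 < Fintype.card {x : Fin 3 → F // MvPolynomial.eval x f = 0} :=
      Fintype.card_pos_iff.mpr ⟨⟨0, h0⟩⟩
    exact lt_of_lt_of_le (by omega) (Nat.le_of_dvd h1 hdvd)
  obtain ⟨⟨p, hp⟩, hne⟩ := Fintype.exists_ne_of_one_lt_card hcard ⟨0, h0⟩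
  refine ⟨p, fun h => hne (Subtype.ext h), ?_⟩
  rw [hf] at hp
  simpa using hp

lemma qd_ind {x y z : K} (h : LinearIndependent F ![x, y, z]) {a b c : F}
    (h0 : a • x + b • y + c • z = 0) : a = 0 ∧ b = 0 ∧ c = 0 := by
  rw [Fintype.linearIndependent_iff] at h
  have h1 := h ![a, b, c] (by simp [Fin.sum_univ_three, h0])
  exact ⟨h1 0, h1 1, h1 2⟩

/-- the core: `x (l1 y + l2 z) + a y² + b y z + c z² = 0` with `l2 ≠ 0` -/
lemma qd_core {x y z : K} (h : LinearIndependent F ![x, y, z]) {l1 l2 a b c : F}
    (hl : l2 ≠ 0) (h0 : x * (l1 • y + l2 • z) + a • y ^ 2 + b • (y * z) + c • z ^ 2 = 0) :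
    Con (Submodule.span F {x, y, z}) := by
  have hx : x ≠ 0 := by
    rintro rfl
    have := qd_ind h (a := 1) (b := 0) (c := 0) (by simp)
    exact one_ne_zero this.1
  have hy : y ≠ 0 := by
    rintro rfl
    have := qd_ind h (a := 0) (b := 1) (c := 0) (by simp)
    exact one_ne_zero this.2.1
  simp only [Algebra.smul_def] at h0
  set L1 : K := algebraMap F K l1 with hL1
  set L2 : K := algebraMap F K l2 with hL2
  have hL2n : L2 ≠ 0 := by
    rw [hL2]
    simpa using hl
  -- z2 = l1 y + l2 z
  set z2 : K := L1 * y + L2 * z with hz2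
  -- the new coefficients
  set c' : F := c / l2 ^ 2 with hc'
  set b' : F := b / l2 - 2 * c * l1 / l2 ^ 2 with hb'
  set a' : F := a - b * l1 / l2 + c * l1 ^ 2 / l2 ^ 2 with ha'
  have ec : algebraMap F K c' = algebraMap F K c / L2 ^ 2 := by
    rw [hc', map_div₀, map_pow]
  have eb : algebraMap F K b' = algebraMap F K b / L2 - 2 * algebraMap F K c * L1 / L2 ^ 2 := by
    rw [hb', map_sub, map_div₀, map_div₀, map_mul, map_mul, map_pow, map_ofNat]
  have ea : algebraMap F K a' = algebraMap F K a - algebraMap F K b * L1 / L2 +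
      algebraMap F K c * L1 ^ 2 / L2 ^ 2 := by
    rw [ha', map_add, map_sub, map_div₀, map_div₀, map_mul, map_mul, map_pow, map_pow]
  set w : K := x + algebraMap F K b' * y + algebraMap F K c' * z2 with hw
  have key : z2 * w = -(algebraMap F K a') * y ^ 2 := by
    have e : z2 * w + algebraMap F K a' * y ^ 2 = 0 := by
      rw [← h0, hw, ec, eb, ea, hz2]
      field_simp
      ring
    linear_combination e
  have hwi : w ≠ 0 := by
    intro hw0
    have h1 := qd_ind h (a := 1) (b := b' + c' * l1) (c := c' * l2) (by
      simp only [Algebra.smul_def, map_one, map_add, map_mul]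
      rw [← hw0, hw, hz2]
      ring)
    exact one_ne_zero h1.1
  have hz2i : z2 ≠ 0 := by
    intro h2
    have h1 := qd_ind h (a := 0) (b := l1) (c := l2) (by
      simp only [Algebra.smul_def, map_zero, zero_mul, zero_add]
      exact h2)
    exact hl h1.2.2
  have ha'n : algebraMap F K a' ≠ 0 := by
    intro h1
    rw [h1, neg_zero, zero_mul] at key
    exact (mul_ne_zero hz2i hwi) key
  have ha'n' : a' ≠ 0 := by
    intro h1
    rw [h1, map_zero] at ha'n
    exact ha'n rfl
  have ez2 : z2 = -(algebraMap F K a') * (w * (y / w) ^ 2) := by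
    have : z2 = z2 * w / w := by field_simp
    rw [this, key]
    field_simp
  have ez : z = (algebraMap F K l2⁻¹) * (z2 - L1 * y) := by
    rw [map_inv₀, hz2, ← hL2]
    field_simp
    ring
  refine ⟨w, y / w, hwi, ?_, ?_⟩
  · rintro ⟨t, ht⟩
    have e : y = algebraMap F K t * w := by
      rw [ht]
      field_simp
    have h1 := qd_ind h (a := t) (b := t * (b' + c' * l1) - 1) (c := t * (c' * l2)) (by
      simp only [Algebra.smul_def, map_one, map_add, map_mul, map_sub]
      rw [sub_mul, one_mul]
      nth_rewrite 2 [e]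
      rw [hw, hz2]
      ring)
    have h2 := h1.2.1
    rw [h1.1] at h2
    simp at h2
  · unfold sc
    rw [Submodule.map_span]
    have himg : (LinearMap.mulLeft F w) '' {1, y / w, (y / w) ^ 2} =
        {w, y, w * (y / w) ^ 2} := by
      rw [Set.image_insert_eq, Set.image_insert_eq, Set.image_singleton]
      simp only [LinearMap.mulLeft_apply, mul_one]
      rw [show w * (y / w) = y by field_simp]
    rw [himg]
    apply le_antisymm
    · rw [Submodule.span_le]
      have m1 : w ∈ Submodule.span F {w, y, w * (y / w) ^ 2} := Submodule.subset_span (by simp)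
      have m2 : y ∈ Submodule.span F {w, y, w * (y / w) ^ 2} := Submodule.subset_span (by simp)
      have m3 : w * (y / w) ^ 2 ∈ Submodule.span F {w, y, w * (y / w) ^ 2} :=
        Submodule.subset_span (by simp)
      have m4 : z2 ∈ Submodule.span F {w, y, w * (y / w) ^ 2} := by
        have := Submodule.smul_mem _ (-a') m3
        rw [Algebra.smul_def, map_neg, ← ez2] at this
        exact this
      intro t ht
      simp only [Set.mem_insert_iff, Set.mem_singleton_iff] at ht
      rcases ht with rfl | rfl | rfl
      · have := Submodule.sub_mem _ (Submodule.sub_mem _ m1 (Submodule.smul_mem _ b' m2))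
          (Submodule.smul_mem _ c' m4)
        rw [Algebra.smul_def, Algebra.smul_def] at this
        have e : w - algebraMap F K b' * y - algebraMap F K c' * z2 = t := by
          rw [hw]; ring
        rw [e] at this
        exact this
      · exact m2
      · have := Submodule.smul_mem _ l2⁻¹ (Submodule.sub_mem _ m4 (Submodule.smul_mem _ l1 m2))
        rw [Algebra.smul_def, Algebra.smul_def, ← hL1, ← ez] at this
        exact this
    · rw [Submodule.span_le]
      have m1 : x ∈ Submodule.span F {x, y, z} := Submodule.subset_span (by simp)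
      have m2 : y ∈ Submodule.span F {x, y, z} := Submodule.subset_span (by simp)
      have m3 : z ∈ Submodule.span F {x, y, z} := Submodule.subset_span (by simp)
      have m4 : z2 ∈ Submodule.span F {x, y, z} := by
        have := Submodule.add_mem _ (Submodule.smul_mem _ l1 m2) (Submodule.smul_mem _ l2 m3)
        rw [Algebra.smul_def, Algebra.smul_def] at this
        exact this
      intro t ht
      simp only [Set.mem_insert_iff, Set.mem_singleton_iff] at ht
      rcases ht with h1 | h1 | h1
      · have := Submodule.add_mem _ (Submodule.add_mem _ m1 (Submodule.smul_mem _ b' m2))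
          (Submodule.smul_mem _ c' m4)
        rw [Algebra.smul_def, Algebra.smul_def] at this
        rw [h1]
        exact this
      · rw [h1]
        exact m2
      · have := Submodule.smul_mem _ (-a'⁻¹) m4
        rw [Algebra.smul_def, map_neg, map_inv₀] at this
        have e : -(algebraMap F K a')⁻¹ * z2 = t := by
          rw [h1]
          nth_rewrite 1 [ez2]
          field_simp
        rw [e] at this
        exact this

lemma qd_core2 (hB : Big F K) {x y z : K} (h : LinearIndependent F ![x, y, z]) {l1 l2 a b c : F}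
    (h0 : x * (l1 • y + l2 • z) + a • y ^ 2 + b • (y * z) + c • z ^ 2 = 0)
    (hne : ¬ (l1 = 0 ∧ l2 = 0 ∧ a = 0 ∧ b = 0 ∧ c = 0)) :
    Con (Submodule.span F {x, y, z}) := by
  by_cases hl2 : l2 = 0
  · by_cases hl1 : l1 = 0
    · exfalso
      subst hl1; subst hl2
      have hy : y ≠ 0 := by
        rintro rfl
        have := qd_ind h (a := 0) (b := 1) (c := 0) (by simp)
        exact one_ne_zero this.2.1
      have hr : z / y ∉ Set.range (algebraMap F K) := by
        rintro ⟨t, ht⟩
        have e : z = algebraMap F K t * y := by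
          rw [ht]
          field_simp
        have := qd_ind h (a := 0) (b := t) (c := -1) (by
          simp only [Algebra.smul_def, map_zero, zero_mul, zero_add, map_neg, map_one]
          rw [← e]; ring)
        exact one_ne_zero (neg_eq_zero.mp this.2.2)
      have hp := hB.poly hr (f := C a + C b * X + C c * X ^ 2) (by
          compute_degree
          norm_num) (by
          simp only [map_add, map_mul, aeval_C, aeval_X, map_pow]
          simp only [Algebra.smul_def, map_zero, zero_mul, add_zero, mul_zero, zero_add] at h0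
          field_simp
          linear_combination h0)
      apply hne
      have e0 := congrArg (fun f => Polynomial.coeff f 0) hp
      have e1 := congrArg (fun f => Polynomial.coeff f 1) hp
      have e2 := congrArg (fun f => Polynomial.coeff f 2) hp
      simp [Polynomial.coeff_X, Polynomial.coeff_C] at e0 e1 e2
      exact ⟨rfl, rfl, e0, e1, e2⟩
    · -- swap `y` and `z`
      have h' : LinearIndependent F ![x, z, y] := by
        have := h.comp (Equiv.swap (1 : Fin 3) 2) (Equiv.injective _)
        convert this using 1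
        funext i
        fin_cases i <;> rfl
      have := qd_core h' (l1 := l2) (l2 := l1) (a := c) (b := b) (c := a) hl1 (by
        rw [← h0, mul_comm z y]; ring)
      rwa [show ({x, z, y} : Set K) = {x, y, z} by rw [Set.pair_comm z y]] at this
  · exact qd_core h hl2 h0

/-- the case of a zero `(1, p1, p2)` -/
lemma qd_pt (hB : Big F K) {s : Fin 3 → K} (hs : LinearIndependent F s)
    {X : Matrix (Fin 3) (Fin 3) F} (hX : X ∈ NN F s s)
    (h : ¬ (X.transpose = -X ∧ ∀ i, X i i = 0)) {p : Fin 3 → F} (hp : p 0 ≠ 0)
    (hp0 : ∑ i, ∑ j, X i j * (p i * p j) = 0) : Con (Submodule.span F (Set.range s)) := by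
  have hX' : ∑ i, ∑ j, X i j • (s i * s j) = 0 := hX
  simp only [Fin.sum_univ_three] at hX' hp0
  set p1 : F := p 1 / p 0 with hp1
  set p2 : F := p 2 / p 0 with hp2
  have hq : X 0 0 + (X 0 1 + X 1 0) * p1 + (X 0 2 + X 2 0) * p2 + X 1 1 * p1 ^ 2 +
      (X 1 2 + X 2 1) * (p1 * p2) + X 2 2 * p2 ^ 2 = 0 := by
    have e : X 0 0 + (X 0 1 + X 1 0) * p1 + (X 0 2 + X 2 0) * p2 + X 1 1 * p1 ^ 2 +
      (X 1 2 + X 2 1) * (p1 * p2) + X 2 2 * p2 ^ 2 = (X 0 0 * (p 0 * p 0) + X 0 1 * (p 0 * p 1) +
        X 0 2 * (p 0 * p 2) + (X 1 0 * (p 1 * p 0) + X 1 1 * (p 1 * p 1) + X 1 2 * (p 1 * p 2)) +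
        (X 2 0 * (p 2 * p 0) + X 2 1 * (p 2 * p 1) + X 2 2 * (p 2 * p 2))) / (p 0) ^ 2 := by
      rw [hp1, hp2]
      field_simp
      ring
    rw [e, hp0, zero_div]
  set y : K := s 1 - algebraMap F K p1 * s 0 with hy
  set z : K := s 2 - algebraMap F K p2 * s 0 with hz
  have hsv : LinearIndependent F ![s 0, s 1, s 2] := by
    convert hs using 1
    funext i
    fin_cases i <;> rfl
  have hind : LinearIndependent F ![s 0, y, z] := by
    rw [Fintype.linearIndependent_iff]
    intro g hg
    simp only [Fin.sum_univ_three, Matrix.cons_val] at hg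
    have h1 := qd_ind hsv (a := g 0 - g 1 * p1 - g 2 * p2) (b := g 1) (c := g 2) (by
      rw [← hg, hy, hz]
      simp only [Algebra.smul_def, map_sub, map_mul]
      ring)
    obtain ⟨g0, g1, g2⟩ := h1
    rw [g1, g2] at g0
    intro i
    fin_cases i
    · simpa using g0
    · exact g1
    · exact g2
  have hspan : Submodule.span F (Set.range s) = Submodule.span F {s 0, y, z} := by
    apply le_antisymm
    · rw [Submodule.span_le]
      rintro _ ⟨i, rfl⟩
      have m0 : s 0 ∈ Submodule.span F {s 0, y, z} := Submodule.subset_span (by simp)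
      have m1 : y ∈ Submodule.span F {s 0, y, z} := Submodule.subset_span (by simp)
      have m2 : z ∈ Submodule.span F {s 0, y, z} := Submodule.subset_span (by simp)
      fin_cases i
      · exact m0
      · have := Submodule.add_mem _ m1 (Submodule.smul_mem _ p1 m0)
        rw [Algebra.smul_def, hy, sub_add_cancel] at this
        exact this
      · have := Submodule.add_mem _ m2 (Submodule.smul_mem _ p2 m0)
        rw [Algebra.smul_def, hz, sub_add_cancel] at this
        exact this
    · rw [Submodule.span_le]
      have m : ∀ i, s i ∈ Submodule.span F (Set.range s) := fun i =>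
        Submodule.subset_span ⟨i, rfl⟩
      intro t ht
      simp only [Set.mem_insert_iff, Set.mem_singleton_iff] at ht
      rcases ht with rfl | rfl | rfl
      · exact m 0
      · have := Submodule.sub_mem _ (m 1) (Submodule.smul_mem _ p1 (m 0))
        rw [Algebra.smul_def] at this
        exact this
      · have := Submodule.sub_mem _ (m 2) (Submodule.smul_mem _ p2 (m 0))
        rw [Algebra.smul_def] at this
        exact this
  rw [hspan]
  refine qd_core2 hB hind (l1 := X 0 1 + X 1 0 + 2 * (X 1 1 * p1) + (X 1 2 + X 2 1) * p2)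
    (l2 := X 0 2 + X 2 0 + 2 * (X 2 2 * p2) + (X 1 2 + X 2 1) * p1) (a := X 1 1)
    (b := X 1 2 + X 2 1) (c := X 2 2) ?_ ?_
  · simp only [Algebra.smul_def] at hX' ⊢
    have hq' := congrArg (algebraMap F K) hq
    simp only [map_add, map_mul, map_pow, map_zero, map_ofNat] at hq' ⊢
    rw [hy, hz]
    linear_combination hX' - s 0 ^ 2 * hq'
  · rintro ⟨h1, h2, h3, h4, h5⟩
    apply h
    rw [h3, h4] at h1
    rw [h4, h5] at h2
    simp only [zero_mul, mul_zero, add_zero] at h1 h2
    rw [h1, h2, h3, h4, h5] at hq
    simp only [zero_mul, add_zero] at hq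
    constructor
    · ext i j
      rw [Matrix.transpose_apply, Matrix.neg_apply]
      fin_cases i <;> fin_cases j <;> simp only [Fin.zero_eta, Fin.mk_one, Fin.reduceFinMk]
      · rw [hq, neg_zero]
      · linear_combination h1
      · linear_combination h2
      · linear_combination h1
      · rw [h3, neg_zero]
      · linear_combination h4
      · linear_combination h2
      · linear_combination h4
      · rw [h5, neg_zero]
    · intro i
      fin_cases i
      · exact hq
      · exact h3
      · exact h5

theorem con_of_quadric [Finite F] (hB : Big F K) {s : Fin 3 → K} (hs : LinearIndependent F s)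
    {X : Matrix (Fin 3) (Fin 3) F} (hX : X ∈ NN F s s)
    (h : ¬ (X.transpose = -X ∧ ∀ i, X i i = 0)) : Con (Submodule.span F (Set.range s)) := by
  obtain ⟨p, hp, hp0⟩ := qd_zero X
  obtain ⟨i0, hi0⟩ : ∃ i, p i ≠ 0 := by
    by_contra hcon
    push Not at hcon
    exact hp (funext hcon)
  set σ : Equiv.Perm (Fin 3) := Equiv.swap 0 i0 with hσ
  have hr : Set.range (s ∘ σ) = Set.range s := σ.surjective.range_comp s
  rw [← hr]
  refine qd_pt hB (s := s ∘ σ) (X := X.submatrix σ σ) (p := p ∘ σ) (hs.comp σ σ.injective) ?_ ?_
    ?_ ?_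
  · show ∑ i, ∑ j, (X.submatrix σ σ) i j • ((s ∘ σ) i * (s ∘ σ) j) = 0
    have hX' : ∑ i, ∑ j, X i j • (s i * s j) = 0 := hX
    simp only [Matrix.submatrix_apply, Function.comp_apply]
    rw [← hX', ← Equiv.sum_comp σ (fun i => ∑ j, X i j • (s i * s j))]
    apply Finset.sum_congr rfl
    intro i _
    rw [← Equiv.sum_comp σ (fun j => X (σ i) j • (s (σ i) * s j))]
  · rintro ⟨h1, h2⟩
    apply h
    constructor
    · ext i j
      have := congrFun (congrFun h1 (σ.symm i)) (σ.symm j)
      simpa using this
    · intro i
      have := h2 (σ.symm i)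
      simpa using this
  · simp only [Function.comp_apply, hσ, Equiv.swap_apply_left]
    exact hi0
  · simp only [Matrix.submatrix_apply, Function.comp_apply]
    rw [← hp0, ← Equiv.sum_comp σ (fun i => ∑ j, X i j * (p i * p j))]
    apply Finset.sum_congr rfl
    intro i _
    rw [← Equiv.sum_comp σ (fun j => X (σ i) j * (p (σ i) * p j))]

end Pool.Agent.Helper74.CW
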